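import Mathlib

/-! The separation-size generating function is not a complete invariant of rooted trees. -/

namespace Pool.Agent.Results.MP_1db03b_co.NotComplete

mutual
/-- Rooted trees, given by the forest of their branches; `node nil` is the one-vertex tree. -/
inductive RTree
  | node : Forest → RTree
/-- Finite lists of rooted trees. -/
inductive Forest
  | nil : Forest
  | cons : RTree → Forest → Forest
end

mutual
/-- Isomorphism of rooted trees. -/
inductive Iso : RTree → RTree → Prop
  | node {F F' : Forest} : FIso F F' → Iso (.node F) (.node F')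
/-- Isomorphism of forests: the trees are permuted and replaced by isomorphic ones. -/
inductive FIso : Forest → Forest → Prop
  | nil : FIso .nil .nil
  | cons {T T' : RTree} {F F' : Forest} : Iso T T' → FIso F F' → FIso (.cons T F) (.cons T' F')
  | swap {T T' : RTree} {F : Forest} : FIso (.cons T (.cons T' F)) (.cons T' (.cons T F))
  | trans {F F' F'' : Forest} : FIso F F' → FIso F' F'' → FIso F F''
end

mutual
/-- the polynomial `p_T(x)` -/
noncomputable def p : RTree → Polynomial ℚ
  | .node .nil => Polynomial.X
  | .node (.cons T F) => Polynomial.X * (1 - pProd (.cons T F))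
/-- the product of the polynomials `1 - p_{T_i}(x)` over a list of trees -/
noncomputable def pProd : Forest → Polynomial ℚ
  | .nil => 1
  | .cons T F => (1 - p T) * pProd F
end

/-- the variable `x` -/
noncomputable def vx : MvPolynomial (Fin 3) ℚ := MvPolynomial.X 0
/-- the variable `y` -/
noncomputable def vy : MvPolynomial (Fin 3) ℚ := MvPolynomial.X 1
/-- the variable `z` -/
noncomputable def vz : MvPolynomial (Fin 3) ℚ := MvPolynomial.X 2

mutual
/-- the polynomial `A_T(x, y)` -/
noncomputable def A : RTree → MvPolynomial (Fin 3) ℚ
  | .node .nil => vy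
  | .node (.cons T F) => vy + vx * aProd (.cons T F)
/-- the product of the polynomials `A_{T_i}` over a list of trees -/
noncomputable def aProd : Forest → MvPolynomial (Fin 3) ℚ
  | .nil => 1
  | .cons T F => A T * aProd F
end

mutual
/-- the polynomial `M_T(x, y, z)`; the first summand is `p_T(z) / z` -/
noncomputable def M : RTree → MvPolynomial (Fin 3) ℚ
  | .node .nil => 1
  | .node (.cons T F) =>
      Polynomial.aeval vz (p (.node (.cons T F))).divX + vx * mSum (.cons T F)
/-- the sum over `i` of `M_{T_i}` times the product of the `A_{T_j}`, `j ≠ i`, over a list of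
trees, computed by the product rule (see `mSum_eq`) -/
noncomputable def mSum : Forest → MvPolynomial (Fin 3) ℚ
  | .nil => 0
  | .cons T F => M T * aProd F + A T * mSum F
end

/-- the list of the trees of a forest -/
def toList : Forest → List RTree
  | .nil => []
  | .cons T F => T :: toList F

theorem aProd_eq : ∀ F : Forest, aProd F = ∏ j : Fin (toList F).length, A ((toList F).get j)
  | .nil => by simp [aProd, toList]
  | .cons T F => by
    rw [aProd, aProd_eq F]
    exact (Fin.prod_univ_succ
      (fun j : Fin ((toList F).length + 1) => A ((T :: toList F).get j))).symm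

/-- `mSum` is the sum in the definition of `M_T`: over the index `i` of a branch, `M` of this
branch times the product of `A` over the other branches. -/
theorem mSum_eq : ∀ F : Forest, mSum F = ∑ i : Fin (toList F).length,
    M ((toList F).get i) *
      ∏ j : Fin (toList F).length, if j = i then 1 else A ((toList F).get j)
  | .nil => by simp [mSum, toList]
  | .cons T F => by
    rw [mSum, mSum_eq F]
    have h := Fin.sum_univ_succ (fun i : Fin ((toList F).length + 1) =>
      M ((T :: toList F).get i) *
      ∏ j : Fin ((toList F).length + 1), if j = i then 1 else A ((T :: toList F).get j))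
    refine Eq.trans ?_ h.symm
    congr 1
    · rw [Fin.prod_univ_succ, aProd_eq]
      simp [Fin.succ_ne_zero]
    · rw [Finset.mul_sum]
      refine Finset.sum_congr rfl ?_
      intro i _
      rw [Fin.prod_univ_succ]
      have h0 : (0 : Fin ((toList F).length + 1)) ≠ i.succ := (Fin.succ_ne_zero i).symm
      simp only [if_neg h0, Fin.succ_inj]
      show A T * (M ((toList F).get i) * _) = M ((toList F).get i) *
        (A T * ∏ x : Fin (toList F).length, if x = i then 1 else A ((toList F).get x))
      ring

/-- `M_T(x u, 1 - u, u)` as a polynomial in `u` with coefficients in `ℚ[x]` -/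
noncomputable def Mu (T : RTree) : Polynomial (Polynomial ℚ) :=
  MvPolynomial.aeval (![Polynomial.C Polynomial.X * Polynomial.X, 1 - Polynomial.X, Polynomial.X] :
    Fin 3 → Polynomial (Polynomial ℚ)) (M T)

/-- The polynomial `G_T(x) ∈ ℚ[x]`: the integral of `M_T(x u, 1 - u, u)` over `u` from `0` to `1`,
that is, the monomial `u ^ k` is replaced by `1 / (k + 1)`. -/
noncomputable def G (T : RTree) : Polynomial ℚ :=
  (Mu T).sum fun k c => c * Polynomial.C (1 / ((k : ℚ) + 1))

/-- the same integral for a real number `x` -/
noncomputable def GR (T : RTree) (x : ℝ) : ℝ :=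
  ∫ u in (0 : ℝ)..1, MvPolynomial.aeval (![x * u, 1 - u, u] : Fin 3 → ℝ) (M T)

/-- one vertex -/
def pt : RTree := .node .nil

/-- one branch -/
def br1 (T : RTree) : RTree := .node (.cons T .nil)

/-- two branches -/
def br2 (T T' : RTree) : RTree := .node (.cons T (.cons T' .nil))

def U : RTree := br2 (br1 pt) (br2 pt (br1 (br2 pt pt)))

def U' : RTree := br2 (br2 pt pt) (br1 (br2 pt (br1 pt)))

def T₁ : RTree := br2 (br2 U U) (br2 U' U')

def T₂ : RTree := br2 (br2 U U') (br2 U U')

theorem A_eq : A U = A U' := by
  simp only [U, U', pt, br1, br2, A, aProd]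
  ring

theorem p_eq : p U = p U' := by
  simp only [U, U', pt, br1, br2, p, pProd]
  ring

theorem M_eq : M T₁ = M T₂ := by
  have hA := A_eq
  have hp := p_eq
  generalize hU : U = R at *
  generalize hU' : U' = R' at *
  simp only [T₁, T₂, br2, M, mSum, A, aProd, p, pProd, hU, hU', hA, hp]
  ring

mutual
/-- an isomorphism invariant -/
def inv : RTree → ℕ
  | .node .nil => 2
  | .node (.cons T F) => 1 + invProd (.cons T F)
def invProd : Forest → ℕ
  | .nil => 1
  | .cons T F => inv T * invProd F
end

/-- forests are empty at the same time and have the same product -/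
def Good (F F' : Forest) : Prop := invProd F = invProd F' ∧ (F = .nil ↔ F' = .nil)

theorem inv_iso {T T' : RTree} (h : Iso T T') : inv T = inv T' := by
  refine Iso.rec (motive_1 := fun T T' _ => inv T = inv T')
    (motive_2 := fun F F' _ => Good F F') ?_ ?_ ?_ ?_ ?_ h
  · intro F F' _ ih
    cases F with
    | nil =>
      rw [ih.2.mp rfl]
    | cons T F =>
      cases F' with
      | nil => exact absurd (ih.2.mpr rfl) (by simp)
      | cons T' F' =>
        show 1 + invProd (.cons T F) = 1 + invProd (.cons T' F')
        rw [ih.1]
  · exact ⟨rfl, Iff.rfl⟩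
  · intro T T' F F' _ _ h1 h2
    refine ⟨?_, by simp⟩
    rw [invProd, invProd, h1, h2.1]
  · intro T T' F
    refine ⟨?_, by simp⟩
    simp only [invProd]
    ring
  · intro F F' F'' _ _ h1 h2
    exact ⟨h1.1.trans h2.1, h1.2.trans h2.2⟩

theorem not_iso : ¬ Iso T₁ T₂ := by
  intro h
  have := inv_iso h
  simp [T₁, T₂, U, U', pt, br1, br2, inv, invProd] at this

/-- Question 1 is false. -/
theorem result : ∃ T T' : RTree, ¬ Iso T T' ∧ M T = M T' ∧ G T = G T' ∧
    ∀ x : ℝ, GR T x = GR T' x := by
  refine ⟨T₁, T₂, not_iso, M_eq, ?_, ?_⟩
  · unfold G Mu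
    rw [M_eq]
  · intro x
    unfold GR
    rw [M_eq]

end Pool.Agent.Results.MP_1db03b_co.NotComplete
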